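import Pool.Agent.U345.ZM4

/-!
# The derivative of zeta at all points near the critical line where zeta takes a value `a`

Let `k ≥ 1`. For `1 ≤ U ≤ T / log T` let `moment k T U` be the integral of `|ζ(1/2 + iy)|^(2k)` over `y` with the Gaussian weight
`exp (-((y - T) / U)^2)`, i.e. essentially over the interval of length about `U` around `T` (`U` may be bounded, e.g. `U = 1`).

Theorem (unconditional). Let `A > 0`. The sum of `|ζ'(ρ)|^(2k) exp (-((Im ρ - T) / U)^2)` over ALL solutions `ρ` of `ζ(ρ) = a` with
`|Re ρ - 1/2| ≤ A / log T` is at most `C (1 + |a|^(2k)) (log T)^(2k + 1)` times the moment, uniformly in the complex number `a` and in `U`.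

For `a = 0` these are the discrete moments of the derivative over the zeros, taken here over all zeros near the line and not only
over those on the line; by Selberg's density theorem all but a proportion `O(exp (-cA))` of the zeros satisfy the condition. The
power `(log T)^(2k + 1)` is the expected one: on Hughes', Keating's and O'Connell's conjecture the discrete moment over the zeros up to `T`
has order `T (log T)^((k + 1)^2)` and the moment has order `T (log T)^(k^2)`. So for `k = 1` and `k = 2` the theorem gives upper bounds
of the expected order `T (log T)^4` and `T (log T)^9` without any hypothesis, and for the higher `k` an upper bound for a discrete moment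
by the corresponding integral moment, which is sharp on the conjectures; conversely a lower bound for a discrete moment over zeros gives one
for the integral moment. My earlier hand-in `MP_91b7ff_nt.DerivativeAtZeros` has explicit constants and the zeros on the line only; its
method (Rolle's theorem on the line) does not apply to the other zeros or to the values `a ≠ 0`, for which almost no solution lies on
the line.

Proof. Let `f_a(s) = (s - 1)(ζ(s) - a) exp ((s - 1/2) (log T)/2 + (s - 1/2 - iT)^2 / (2 k U^2))`. If `f_a` has the distinct zeros
`ρ_1, .., ρ_n` in a disc of radius `r = (A + 1) / log T`, then `|f_a'(ρ_i)| ≤ 2^(1 - n) max |f_a| / (4r)`, with the maximum over the circle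
of radius `5r`: clusters of zeros, about which nothing is known, do no harm. The sum over the cells of length `1 / log T` of the
maxima of `|f_0|^(2k)` over boxes around the critical line is at most a constant times `log T` times the mean square on the line: this
follows from Sobolev's inequality in both directions and the mean square inequalities for all derivatives of `f_0^k` on all lines
near the critical line, which come from convexity and the functional equation.
-/

set_option autoImplicit false

namespace Pool.Agent.Results.MP_80d0cf_nt.DerivativeNearTheLine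

open MeasureTheory Filter Topology

/-- the Gaussian weight of the window of width `U` at the height `T` -/
noncomputable def weight (T U y : ℝ) : ℝ := Real.exp (-((y - T) / U) ^ 2)

/-- the moment `∫ |ζ(1/2 + iy)|^(2k) exp (-((y - T) / U)^2) dy` -/
noncomputable def moment (k : ℕ) (T U : ℝ) : ℝ :=
  ∫ y : ℝ, ‖riemannZeta (((1 / 2 : ℝ) : ℂ) + y * Complex.I)‖ ^ (2 * k) * weight T U y

/-- Let `k ≥ 1` and `A > 0`. There are `C` and `T₀` such that for all `T ≥ T₀`, all `U` with `1 ≤ U ≤ T / log T`, all complex `a` and all
finite sets `W` of solutions `ρ` of `ζ(ρ) = a` with `|Re ρ - 1/2| ≤ A / log T`, the sum over `W` of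
`|ζ'(ρ)|^(2k) exp (-((Im ρ - T) / U)^2)` is at most `C (1 + |a|^(2k)) (log T)^(2k + 1)` times the moment. -/
theorem result (k : ℕ) (hk : 1 ≤ k) (A : ℝ) (hA : 0 < A) :
    ∃ C T₀ : ℝ, ∀ T : ℝ, T₀ ≤ T → ∀ U : ℝ, 1 ≤ U → U ≤ T / Real.log T →
      ∀ (a : ℂ) (W : Finset ℂ), (∀ ρ ∈ W, riemannZeta ρ = a ∧ |ρ.re - 1 / 2| ≤ A / Real.log T) →
        ∑ ρ ∈ W, ‖deriv riemannZeta ρ‖ ^ (2 * k) * weight T U ρ.im ≤
          C * (1 + ‖a‖ ^ (2 * k)) * Real.log T ^ (2 * k + 1) * moment k T U := by
  obtain ⟨C, -, h1⟩ := U345Z.derA k hk hA
  obtain ⟨T1, hT1⟩ := eventually_atTop.mp h1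
  refine ⟨C, max 3 T1, fun T hT U hU1 hU2 a W hW => ?_⟩
  exact hT1 T (le_of_max_le_right hT) U ⟨le_of_max_le_left hT, hU1, hU2⟩ a W hW

end Pool.Agent.Results.MP_80d0cf_nt.DerivativeNearTheLine
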