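import Pool.Agent.U325.DS.Curve
import Pool.Agent.R461.HM.Seq

set_option autoImplicit false

/-!
# MP_80d0cf_nt: high moments of zeta are seen by explicit sparse sets of heights

Deterministic families of finite sets of heights in `[T, 2T]`: `T F(1 + j/J)`, `j < J`, for `J ≥ T^κ`, `κ > 0` arbitrary,
and all curves `F` with derivatives of alternating signs, for instance `T (1 + j/J)^a`, `0 < a < 1`; and the powers `n^c`,
`1 < c < 2`, in short intervals. For all `k` the mean of the local `2k`-th moments of zeta over such a set is at least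
`c (log T)^(k^2)`, and the smoothed shifted `2k`-th moments over the set have the conjectured value with the factor `a_k`.
-/

namespace Pool.Agent.Results.MP_80d0cf_nt.ExplicitSamples

open Complex MeasureTheory Filter Topology Set
open scoped ContDiff ENNReal
open Pool.Agent.R461.HM

noncomputable section

/-- the weighted mean of `|ζ(1/2 + i(t + v))|^(2k)` over `v` at the scale `1 / log T` -/
def localMoment (k N : ℕ) (T t : ℝ) : ℝ≥0∞ :=
  ∫⁻ v : ℝ, ENNReal.ofReal (‖riemannZeta (1 / 2 + I * (t + v))‖ ^ (2 * k) * (Real.log T / (1 + Real.log T * |v|) ^ N))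

/-- `(log T)^(-k^2)` times the mean of `ζ(1/2 + iα/log T + it)^k ζ(1/2 + iα/log T - it)^k` over `t = t_j`, `j < J` -/
def shiftedMean (k : ℕ) (α T : ℝ) (J : ℕ) (t : ℕ → ℝ) : ℂ :=
  ((Real.log T : ℂ) ^ (k ^ 2))⁻¹ * ((J : ℂ)⁻¹ * ∑ j ∈ Finset.range J,
    riemannZeta (1 / 2 + I * α / Real.log T + I * t j) ^ k * riemannZeta (1 / 2 + I * α / Real.log T - I * t j) ^ k)

/-- `φ(α) = ∫ ψ(ξ) e^{iξα} dξ` -/
def phi (ψ : ℝ → ℂ) (α : ℝ) : ℂ := ∫ ξ : ℝ, ψ ξ * exp (I * ξ * α)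

/-- the arithmetic factor `a_k` -/
def arith (k : ℕ) : ℝ :=
  ∏' p : Nat.Primes, ((1 - 1 / (p : ℝ)) ^ (k ^ 2) * ∑' m : ℕ, ((m + k - 1).choose m : ℝ) ^ 2 * (1 / (p : ℝ)) ^ m)

/-- A family of finite sequences `t_0, ..., t_{J-1}` of heights, depending on `T`, sees the high moments of zeta: for all
`k ≥ 1` and `N` the mean over the sequence of the local `2k`-th moments is at least `c (log T)^(k²)`, `c > 0`, for large `T`,
and for some `θ > 0`, all `k ≥ 1` and all smooth compactly supported `ψ` vanishing above `2θ` the integral of `φ(α)` times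
the shifted mean tends to `2π a_k ∫_0^∞ u^(k²-1)/(k²-1)! ψ(2u) du`, uniformly over the family, as `T → ∞`. -/
def SeesMoments (S : ℝ → ℕ → (ℕ → ℝ) → Prop) : Prop :=
  (∀ k N : ℕ, 1 ≤ k → ∃ c : ℝ, 0 < c ∧ ∃ T₀ : ℝ, ∀ T : ℝ, T₀ ≤ T → ∀ (J : ℕ) (t : ℕ → ℝ), S T J t →
    ENNReal.ofReal (c * Real.log T ^ (k ^ 2)) ≤ (J : ℝ≥0∞)⁻¹ * ∑ j ∈ Finset.range J, localMoment k N T (t j)) ∧
  (∃ θ : ℝ, 0 < θ ∧ ∀ k : ℕ, 1 ≤ k → ∀ ψ : ℝ → ℂ, ContDiff ℝ ∞ ψ → HasCompactSupport ψ →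
    (∀ ξ : ℝ, 2 * θ < ξ → ψ ξ = 0) → ∀ ε : ℝ, 0 < ε → ∃ T₀ : ℝ, ∀ T : ℝ, T₀ ≤ T → ∀ (J : ℕ) (t : ℕ → ℝ), S T J t →
      Integrable (fun α : ℝ => phi ψ α * shiftedMean k α T J t) ∧
      ‖(∫ α : ℝ, phi ψ α * shiftedMean k α T J t) - 2 * Real.pi * arith k *
        ∫ u in Ioi (0:ℝ), (u : ℂ) ^ (k ^ 2 - 1) / (k ^ 2 - 1).factorial * ψ (2 * u)‖ ≤ ε)

/-- `F_0` maps `[1,2]` to `[1,2]` and has the derivatives `F_1, F_2, ..., F_{M+5}` on `[1,3]`; those of order `1, ..., M + 4`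
have alternating signs and absolute values between `c₀` and `C₀` -/
def Curve (M : ℕ) (c₀ C₀ : ℝ) (F : ℕ → ℝ → ℝ) : Prop :=
  (∀ x ∈ Icc (1:ℝ) 2, F 0 x ∈ Icc (1:ℝ) 2) ∧
  (∀ m ≤ M + 4, ∀ x ∈ Icc (1:ℝ) 3, HasDerivAt (F m) (F (m + 1) x) x) ∧
  (∀ m, 1 ≤ m → m ≤ M + 4 → ∀ x ∈ Icc (1:ℝ) 3, c₀ ≤ (-1) ^ (m + 1) * F m x ∧ (-1) ^ (m + 1) * F m x ≤ C₀)

/-- the criterion -/
lemma sees {S : ℝ → ℕ → (ℕ → ℝ) → Prop} {θ θ' : ℝ} (hθ : 0 < θ) (hθ' : θ < θ') (T₁ : ℝ)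
    (h : ∀ T : ℝ, T₁ ≤ T → ∀ (J : ℕ) (t : ℕ → ℝ), S T J t → Heights T (T ^ (2 * θ)) (T ^ (-θ')) (unif J t)) :
    SeesMoments S := by
  refine ⟨fun k N hk => ?_, θ, hθ, fun k hk ψ hψ hc hs ε hε => ?_⟩
  · obtain ⟨c, T₀, hc, hT₀, hmain⟩ := lower' hk N hθ hθ'
    refine ⟨c, hc, max T₀ T₁, fun T hT J t hS => ?_⟩
    have hTa := (le_max_left _ _).trans hT
    have hTb := (le_max_right _ _).trans hT
    have hTe := hT₀.trans hTa
    have hT0 : 0 < T := (Real.exp_pos 1).trans_le hTe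
    have hL : 1 ≤ Real.log T := by rwa [Real.le_log_iff_exp_le hT0]
    have h3 := hmain T hTa _ (h T hTb J t hS)
    rw [lintegral_unif k N (by linarith)] at h3
    exact h3
  · obtain ⟨T₀, hT₀, hlim⟩ := limit_form hθ.le hθ' hψ hc hs hk ε hε
    refine ⟨max T₀ T₁, fun T hT J t hS => ?_⟩
    obtain ⟨g1, g2⟩ := hlim T ((le_max_left _ _).trans hT) _ (h T ((le_max_right _ _).trans hT) J t hS)
    have e1 : (fun α : ℝ => W182.KO.P ψ (α * I) * Qn k (unif J t) α T) = fun α : ℝ => phi ψ α * shiftedMean k α T J t := by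
      funext α
      congr 1
      · unfold W182.KO.P phi
        congr 1; funext ξ
        congr 2
        ring
      · unfold Qn shiftedMean
        rw [integral_unif]
    rw [e1] at g1 g2
    exact ⟨g1, g2⟩

/-- size of the frequencies -/
lemma freq {m n : ℕ} (hm : 1 ≤ m) (hn : 1 ≤ n) (hmn : m ≠ n) {Y : ℝ} (hY : (m : ℝ) * n ≤ Y) :
    Y⁻¹ ≤ |Real.log ((m : ℝ) / n)| ∧ |Real.log ((m : ℝ) / n)| ≤ Y := by
  have key : ∀ a b : ℕ, 1 ≤ b → b < a → (a : ℝ) * b ≤ Y → Y⁻¹ ≤ |Real.log ((a : ℝ) / b)| ∧ |Real.log ((a : ℝ) / b)| ≤ Y := by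
    intro a b hb hab hY
    have hb0 : (1:ℝ) ≤ b := by exact_mod_cast hb
    have hab' : (b:ℝ) + 1 ≤ a := by exact_mod_cast hab
    have ha0 : (0:ℝ) < a := by linarith
    have hx : 1 < (a:ℝ) / b := by rw [one_lt_div (by linarith)]; linarith
    have hlog : 0 < Real.log ((a:ℝ) / b) := Real.log_pos hx
    rw [abs_of_pos hlog]
    have haY : (a:ℝ) ≤ Y := by nlinarith
    constructor
    · have h1 := Real.one_sub_inv_le_log_of_pos (show 0 < (a:ℝ) / b by positivity)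
      have h2 : (a:ℝ)⁻¹ ≤ 1 - ((a:ℝ) / b)⁻¹ := by
        rw [inv_div, inv_eq_one_div, ← sub_nonneg]
        have e : 1 - (b:ℝ) / a - 1 / a = (a - b - 1) / a := by field_simp
        rw [e]
        exact div_nonneg (by linarith) ha0.le
      have h3 : Y⁻¹ ≤ (a:ℝ)⁻¹ := inv_anti₀ ha0 haY
      linarith
    · have h1 := Real.log_le_sub_one_of_pos (show 0 < (a:ℝ) / b by positivity)
      have h2 : (a:ℝ) / b ≤ a := div_le_self ha0.le hb0
      linarith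
  rcases lt_or_gt_of_ne hmn with h | h
  · have h1 := key n m hm h (by linarith [mul_comm (m:ℝ) n])
    have e : Real.log ((m:ℝ) / n) = -Real.log ((n:ℝ) / m) := by
      rw [← Real.log_inv, inv_div]
    rw [e, abs_neg]
    exact h1
  · exact key m n hn h hY

/-- curves -/
lemma curves {κ : ℝ} (hκ : 0 < κ) {c₀ C₀ : ℝ} (hc₀ : 0 < c₀) {M : ℕ} (hM : 2 / κ ≤ M) :
    ∃ θ θ' T₁ : ℝ, 0 < θ ∧ θ < θ' ∧ ∀ T : ℝ, T₁ ≤ T → ∀ (J : ℕ) (t : ℕ → ℝ),
      (T ^ κ ≤ J ∧ ∃ F : ℕ → ℝ → ℝ, Curve M c₀ C₀ F ∧ ∀ j : ℕ, j < J → t j = T * F 0 (1 + j / J)) →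
      Heights T (T ^ (2 * θ)) (T ^ (-θ')) (unif J t) := by
  obtain ⟨η, hη0, hη1, C, hC, hsum⟩ := U325.DS.curve_sum M c₀ C₀ hc₀
  set θ' : ℝ := min (κ * η / 2) (1 / 4) with hθ'
  have h0 : 0 < θ' := lt_min (by positivity) (by norm_num)
  have h1 : 2 * θ' ≤ κ * η := by have := min_le_left (κ * η / 2) (1 / 4 : ℝ); linarith
  have h2 : θ' ≤ 1 / 4 := min_le_right _ _
  have t1 : Tendsto (fun T : ℝ => T ^ θ') atTop atTop := tendsto_rpow_atTop h0
  have t2 : Tendsto (fun T : ℝ => T ^ (3 / 4 : ℝ)) atTop atTop := tendsto_rpow_atTop (by norm_num)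
  obtain ⟨T₁, hT₁⟩ := eventually_atTop.mp ((t1.eventually_ge_atTop (7 * C)).and
    ((t2.eventually_ge_atTop 7).and (eventually_ge_atTop 1)))
  refine ⟨θ' / 2, θ', T₁, by positivity, by linarith, fun T hT J t ⟨hJ, F, hF, ht⟩ => ?_⟩
  obtain ⟨q1, q2, q3⟩ := hT₁ T hT
  have hT0 : 0 < T := by linarith
  have hJ1r : (1:ℝ) ≤ J := (Real.one_le_rpow q3 hκ.le).trans hJ
  have hJ1 : 1 ≤ J := by exact_mod_cast hJ1r
  have hJ0 : (0:ℝ) < J := by linarith
  refine unif_heights hJ1 (fun j hj => ?_) (fun m n hm hn hmn hY => ?_)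
  · rw [ht j hj]
    have h3 : (1 + (j:ℝ) / J) ∈ Icc (1:ℝ) 2 := by
      have h4 : (j:ℝ) / J ≤ 1 := by
        rw [div_le_one hJ0]; exact_mod_cast hj.le
      have h5 : 0 ≤ (j:ℝ) / J := by positivity
      constructor <;> linarith
    obtain ⟨h6, h7⟩ := hF.1 _ h3
    constructor <;> nlinarith
  · obtain ⟨f1, f2⟩ := freq hm hn hmn hY
    set lam := Real.log ((m : ℝ) / n) with hlam
    have hYT : T ^ (2 * (θ' / 2)) ≤ T ^ (1 / 4 : ℝ) := Real.rpow_le_rpow_of_exponent_le q3 (by linarith)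
    have hY0 : 0 < T ^ (2 * (θ' / 2)) := by positivity
    have hl0 : 0 < |lam| := lt_of_lt_of_le (by positivity) f1
    have hpi := Real.pi_pos
    have hpi2 := Real.pi_le_four
    have hpi3 := Real.pi_lt_d2
    set ξ : ℝ := T * lam / (2 * Real.pi) with hξ
    have hξa : |ξ| = T * |lam| / (2 * Real.pi) := by
      rw [hξ, abs_div, abs_mul, abs_of_pos hT0, abs_of_pos (by positivity : 0 < 2 * Real.pi)]
    have hξ1 : 1 ≤ |ξ| := by
      rw [hξa, le_div_iff₀ (by positivity), one_mul]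
      have h3 : T ^ (3 / 4 : ℝ) ≤ T * |lam| := by
        have h4 : (T ^ (1 / 4 : ℝ))⁻¹ ≤ |lam| := (inv_anti₀ hY0 hYT).trans f1
        have h5 : T ^ (3 / 4 : ℝ) = T * (T ^ (1 / 4 : ℝ))⁻¹ := by
          rw [← Real.rpow_neg hT0.le]
          nth_rewrite 2 [← Real.rpow_one T]
          rw [← Real.rpow_add hT0]
          norm_num
        rw [h5]
        gcongr
      linarith
    have hξ2 : |ξ| ≤ (J:ℝ) ^ M := by
      have h3 : |ξ| ≤ T ^ (2:ℝ) := by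
        rw [hξa]
        calc T * |lam| / (2 * Real.pi) ≤ T * |lam| := div_le_self (by positivity) (by linarith [Real.pi_gt_three])
          _ ≤ T * T ^ (1 / 4 : ℝ) := by gcongr; exact f2.trans hYT
          _ ≤ T * T ^ (1:ℝ) := by
              refine mul_le_mul_of_nonneg_left ?_ hT0.le
              exact Real.rpow_le_rpow_of_exponent_le q3 (by norm_num)
          _ = T ^ (2:ℝ) := by rw [Real.rpow_one, Real.rpow_two]; ring
      have h4 : T ^ (2:ℝ) ≤ (T ^ κ) ^ (M:ℝ) := by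
        rw [← Real.rpow_mul hT0.le]
        refine Real.rpow_le_rpow_of_exponent_le q3 ?_
        rw [div_le_iff₀ hκ] at hM
        linarith
      have h5 : (T ^ κ) ^ (M:ℝ) ≤ (J:ℝ) ^ M := by
        rw [Real.rpow_natCast]
        exact pow_le_pow_left₀ (by positivity) hJ M
      exact h3.trans (h4.trans h5)
    have h6 := hsum J J (J:ℝ) ξ F hF.2 hJ1 le_rfl le_rfl (by linarith) hξ1 hξ2
    have e1 : ∑ j ∈ Finset.range J, exp (I * (t j * lam)) = ∑ n ∈ Finset.range J, U325.DS.ee (ξ * F 0 (((J:ℝ) + n) / J)) := by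
      refine Finset.sum_congr rfl fun j hj => ?_
      rw [ht j (Finset.mem_range.1 hj)]
      unfold U325.DS.ee
      have e2 : ((J:ℝ) + j) / J = 1 + j / J := by field_simp
      rw [e2]
      congr 1
      rw [hξ]
      push_cast
      have : (Real.pi : ℂ) ≠ 0 := by exact_mod_cast hpi.ne'
      field_simp
    rw [e1]
    refine h6.trans ?_
    have e3 : C * ((J:ℝ) ^ (1 - η) + J / |ξ|) = J * (C * (J:ℝ) ^ (-η) + 2 * Real.pi * C / T * (1 / |lam|)) := by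
      rw [sub_eq_neg_add, Real.rpow_add hJ0, Real.rpow_one, hξa]
      field_simp
    rw [e3]
    refine mul_le_mul_of_nonneg_left ?_ hJ0.le
    have h7 : C * (J:ℝ) ^ (-η) ≤ T ^ (-θ') := by
      have h11 : (J:ℝ) ^ (-η) ≤ (T ^ κ) ^ (-η) :=
        Real.rpow_le_rpow_of_nonpos (by positivity) hJ (by linarith)
      calc C * (J:ℝ) ^ (-η) ≤ C * (T ^ κ) ^ (-η) := mul_le_mul_of_nonneg_left h11 hC.le
        _ = C * T ^ (-(κ * η)) := by rw [← Real.rpow_mul hT0.le]; congr 2; ring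
        _ ≤ C * T ^ (-(2 * θ')) := by
            refine mul_le_mul_of_nonneg_left ?_ hC.le
            exact Real.rpow_le_rpow_of_exponent_le q3 (by linarith)
        _ = (C * (T ^ θ')⁻¹) * T ^ (-θ') := by
            rw [← Real.rpow_neg hT0.le, mul_assoc, ← Real.rpow_add hT0]
            congr 2; ring
        _ ≤ 1 * T ^ (-θ') := by
            gcongr
            rw [← div_eq_mul_inv, div_le_one (by positivity)]
            linarith
        _ = _ := one_mul _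
    have h8 : 2 * Real.pi * C / T ≤ T ^ (-θ') := by
      rw [div_le_iff₀ hT0]
      have h9 : T ^ θ' ≤ T ^ (-θ') * T := by
        nth_rewrite 3 [← Real.rpow_one T]
        rw [← Real.rpow_add hT0]
        exact Real.rpow_le_rpow_of_exponent_le q3 (by linarith)
      nlinarith
    have h10 : 2 * Real.pi * C / T * (1 / |lam|) ≤ T ^ (-θ') * (1 / |lam|) := by gcongr
    calc _ ≤ T ^ (-θ') + T ^ (-θ') * (1 / |lam|) := add_le_add h7 h10
      _ = _ := by ring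

/-- the norm of the sum does not depend on the sign of the frequency -/
lemma norm_abs (L : ℕ) (t : ℕ → ℝ) (lam : ℝ) :
    ‖∑ j ∈ Finset.range L, exp (I * (t j * lam))‖ = ‖∑ j ∈ Finset.range L, U325.DS.ee (-(|lam| * t j / (2 * Real.pi)))‖ := by
  have hpi : (Real.pi : ℂ) ≠ 0 := by exact_mod_cast Real.pi_pos.ne'
  rcases le_or_gt 0 lam with h | h
  · rw [abs_of_nonneg h, ← Complex.norm_conj, map_sum]
    congr 1
    refine Finset.sum_congr rfl fun j _ => ?_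
    rw [← Complex.exp_conj]
    unfold U325.DS.ee
    congr 1
    simp only [map_mul, Complex.conj_I, Complex.conj_ofReal]
    push_cast
    field_simp
  · rw [abs_of_neg h]
    congr 1
    refine Finset.sum_congr rfl fun j _ => ?_
    unfold U325.DS.ee
    congr 1
    push_cast
    field_simp

lemma ee_int (k : ℕ) (x : ℝ) : U325.DS.ee (k + x) = U325.DS.ee x := by
  unfold U325.DS.ee
  rw [Complex.exp_eq_exp_iff_exists_int]
  refine ⟨k, ?_⟩
  push_cast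
  ring

/-- the powers `n^c` -/
lemma powers {c : ℝ} (hc1 : 1 < c) (hc2 : c < 2) :
    ∃ η₁ : ℝ, 0 < η₁ ∧ ∃ θ θ' T₁ : ℝ, 0 < θ ∧ θ < θ' ∧ ∀ T : ℝ, T₁ ≤ T → ∀ (L : ℕ) (t : ℕ → ℝ),
      (T ^ (1 / c - η₁) ≤ L ∧ ∃ u : ℕ, ∀ j : ℕ, j < L → t j = ((u : ℝ) + j) ^ c ∧ t j ∈ Icc T (2 * T)) →
      Heights T (T ^ (2 * θ)) (T ^ (-θ')) (unif L t) := by
  obtain ⟨A₀, c₀, C₀, hA₀, hc₀, hder⟩ := U325.DS.der_lin hc1 hc2 5
  obtain ⟨η, hη0, hη1, C, hC, hsum⟩ := U325.DS.curve_sum 5 c₀ C₀ hc₀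
  have hc0 : 0 < c := by linarith
  set ρ : ℝ := 1 - 1 / c with hρ
  have hρ0 : 0 < ρ := by
    rw [hρ, sub_pos, div_lt_one hc0]; exact hc1
  have hρ1 : ρ ≤ 1 / 2 := by
    rw [hρ]
    have : 1 / 2 ≤ 1 / c := by
      rw [div_le_div_iff₀ (by norm_num) hc0]; linarith
    linarith
  have hρc : ρ = (c - 1) / c := by rw [hρ]; field_simp
  set η₁ : ℝ := η / (2 * c) with hη₁
  have hη₁0 : 0 < η₁ := by positivity
  have hη₁1 : η₁ ≤ 1 / 2 := by
    rw [hη₁, div_le_div_iff₀ (by positivity) (by norm_num)]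
    linarith
  set θ' : ℝ := min (η₁ / 2) (1 / 4) with hθ'
  have h0 : 0 < θ' := lt_min (by positivity) (by norm_num)
  have h1 : 2 * θ' ≤ η₁ := by have := min_le_left (η₁ / 2) (1 / 4 : ℝ); linarith
  have h2 : θ' ≤ 1 / 4 := min_le_right _ _
  set θ : ℝ := min (θ' / 2) (ρ / 4) with hθ
  have hθ0 : 0 < θ := lt_min (by positivity) (by positivity)
  have hθ1 : 2 * θ ≤ θ' := by have := min_le_left (θ' / 2) (ρ / 4 : ℝ); linarith
  have hθ2 : 2 * θ ≤ ρ / 2 := by have := min_le_right (θ' / 2) (ρ / 4 : ℝ); linarith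
  have hb1 : (2:ℝ) ^ (1 / c) < 2 := by
    calc (2:ℝ) ^ (1 / c) < 2 ^ (1:ℝ) := Real.rpow_lt_rpow_of_exponent_lt (by norm_num) (by rw [div_lt_one hc0]; exact hc1)
      _ = 2 := Real.rpow_one _
  have hb0 : 0 < 2 - (2:ℝ) ^ (1 / c) := by linarith
  have t1 : Tendsto (fun T : ℝ => T ^ θ') atTop atTop := tendsto_rpow_atTop h0
  have t2 : Tendsto (fun T : ℝ => T ^ (ρ / 2)) atTop atTop := tendsto_rpow_atTop (by positivity)
  have t3 : Tendsto (fun T : ℝ => T ^ (1 / c)) atTop atTop := tendsto_rpow_atTop (by positivity)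
  obtain ⟨T₁, hT₁⟩ := eventually_atTop.mp ((t1.eventually_ge_atTop (13 * C)).and
    ((t2.eventually_ge_atTop 13).and ((t3.eventually_ge_atTop (4 + 2 / (2 - (2:ℝ) ^ (1 / c)))).and
      ((eventually_ge_atTop 1).and (eventually_ge_atTop 32)))))
  refine ⟨η₁, hη₁0, θ, θ', T₁, hθ0, by linarith, fun T hT L t ⟨hL, u, ht⟩ => ?_⟩
  obtain ⟨q1, q2, q3, q4, q5⟩ := hT₁ T hT
  have hT0 : 0 < T := by linarith
  set X : ℝ := T ^ (1 / c) with hX
  have hXpos : 0 < 2 / (2 - (2:ℝ) ^ (1 / c)) := by positivity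
  have hX4 : 4 ≤ X := by linarith
  have hX0 : 0 < X := by linarith
  have hXc : X ^ c = T := by
    rw [hX, ← Real.rpow_mul hT0.le]
    rw [one_div_mul_cancel hc0.ne', Real.rpow_one]
  have hexp : 0 ≤ 1 / c - η₁ := by
    have : 1 / 2 ≤ 1 / c := by
      rw [div_le_div_iff₀ (by norm_num) hc0]; linarith
    linarith
  have hL1r : (1:ℝ) ≤ L := (Real.one_le_rpow q4 hexp).trans hL
  have hL1 : 1 ≤ L := by exact_mod_cast hL1r
  have hL0 : (0:ℝ) < L := by linarith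
  refine unif_heights hL1 (fun j hj => (ht j hj).2) (fun m n hm hn hmn hY => ?_)
  -- the window
  have hu1 : X ≤ u := by
    obtain ⟨g1, g2⟩ := ht 0 (by omega)
    rw [g1] at g2
    have g3 : X ^ c ≤ (u:ℝ) ^ c := by rw [hXc]; simpa using g2.1
    exact (Real.rpow_le_rpow_iff hX0.le (by positivity) hc0).1 g3
  have hu2 : (u:ℝ) + L ≤ (2:ℝ) ^ (1 / c) * X + 1 := by
    obtain ⟨g1, g2⟩ := ht (L - 1) (by omega)
    rw [g1] at g2
    have e : ((L - 1 : ℕ) : ℝ) = (L:ℝ) - 1 := by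
      rw [Nat.cast_sub hL1]; simp
    rw [e] at g2
    have g3 : ((u:ℝ) + (L - 1)) ^ c ≤ ((2:ℝ) ^ (1 / c) * X) ^ c := by
      rw [Real.mul_rpow (by positivity) hX0.le, hXc, ← Real.rpow_mul (by norm_num), one_div_mul_cancel hc0.ne',
        Real.rpow_one]
      exact g2.2
    have g4 := (Real.rpow_le_rpow_iff (by have : (0:ℝ) ≤ u := by positivity
                                          linarith) (by positivity) hc0).1 g3
    linarith
  set B : ℕ := ⌊X⌋₊ with hB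
  have hB1 : (B:ℝ) ≤ X := Nat.floor_le hX0.le
  have hB2 : X - 1 ≤ B := by have := Nat.lt_floor_add_one X; linarith
  have hB3 : X / 2 ≤ B := by linarith
  have hBpos : (0:ℝ) < B := by linarith
  have hBn : 1 ≤ B := by exact_mod_cast (by linarith : (1:ℝ) ≤ B)
  have hLB : L ≤ B := by
    have g : (L:ℝ) ≤ B := by
      have g5 : 2 ≤ (2 - (2:ℝ) ^ (1 / c)) * X := by
        have : 2 / (2 - (2:ℝ) ^ (1 / c)) ≤ X := by linarith
        rw [div_le_iff₀ hb0] at this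
        linarith
      have g6 : (2 - (2:ℝ) ^ (1 / c)) * X = 2 * X - (2:ℝ) ^ (1 / c) * X := by ring
      rw [g6] at g5
      linarith
    exact_mod_cast g
  have huL : (u:ℝ) + L ≤ 3 * B := by
    have : (2:ℝ) ^ (1 / c) * X ≤ 2 * X := by gcongr
    linarith
  obtain ⟨f1, f2⟩ := freq hm hn hmn hY
  set lam := Real.log ((m : ℝ) / n) with hlam
  have hY0 : 0 < T ^ (2 * θ) := by positivity
  have hl0 : 0 < |lam| := lt_of_lt_of_le (by positivity) f1
  have hpi := Real.pi_pos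
  have hpi3 := Real.pi_lt_d2
  have hpi4 := Real.pi_gt_three
  -- `|lam| B^(c-1)` is large
  have hBc1 : X ^ (c - 1) / 2 ≤ (B:ℝ) ^ (c - 1) := by
    calc X ^ (c - 1) / 2 ≤ X ^ (c - 1) / 2 ^ (c - 1) := by
          refine div_le_div_of_nonneg_left (by positivity) (by positivity) ?_
          calc (2:ℝ) ^ (c - 1) ≤ 2 ^ (1:ℝ) := Real.rpow_le_rpow_of_exponent_le (by norm_num) (by linarith)
            _ = 2 := Real.rpow_one _
      _ = (X / 2) ^ (c - 1) := (Real.div_rpow hX0.le (by norm_num) _).symm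
      _ ≤ _ := Real.rpow_le_rpow (by positivity) hB3 (by linarith)
  have hXc1 : X ^ (c - 1) = T ^ ρ := by
    rw [hX, ← Real.rpow_mul hT0.le, hρc]
    congr 1; ring
  have hbig : 2 * Real.pi ≤ |lam| * (B:ℝ) ^ (c - 1) := by
    have g1 : T ^ (ρ / 2) ≤ |lam| * T ^ ρ := by
      have g2 : T ^ (-(ρ / 2)) ≤ |lam| := by
        refine le_trans ?_ f1
        rw [← Real.rpow_neg hT0.le]
        exact Real.rpow_le_rpow_of_exponent_le q4 (by linarith)
      calc T ^ (ρ / 2) = T ^ (-(ρ / 2)) * T ^ ρ := by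
            rw [← Real.rpow_add hT0]; congr 1; ring
        _ ≤ _ := by gcongr
    have g3 : |lam| * (T ^ ρ / 2) ≤ |lam| * (B:ℝ) ^ (c - 1) := by
      rw [← hXc1]
      gcongr
    linarith
  set ξ : ℝ := |lam| * (B:ℝ) ^ c / (2 * Real.pi) with hξ
  have hξ0 : 0 < ξ := by positivity
  have hBc : (B:ℝ) ^ c = (B:ℝ) ^ (c - 1) * B := by
    rw [← Real.rpow_add_one hBpos.ne']
    congr 1; ring
  have hξB : B ≤ ξ := by
    rw [hξ, le_div_iff₀ (by positivity), hBc]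
    calc (B:ℝ) * (2 * Real.pi) ≤ B * (|lam| * (B:ℝ) ^ (c - 1)) := mul_le_mul_of_nonneg_left hbig hBpos.le
      _ = _ := by ring
  have hξ1 : 1 ≤ |ξ| := by
    rw [abs_of_pos hξ0]
    have : (1:ℝ) ≤ B := by exact_mod_cast hBn
    linarith
  have hBT : (B:ℝ) ^ c ≤ T := by
    rw [← hXc]; exact Real.rpow_le_rpow hBpos.le hB1 hc0.le
  have hξ2 : |ξ| ≤ (B:ℝ) ^ 5 := by
    rw [abs_of_pos hξ0]
    have g1 : ξ ≤ T ^ (1 / 4 : ℝ) * T := by
      calc ξ ≤ |lam| * (B:ℝ) ^ c := div_le_self (by positivity) (by linarith)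
        _ ≤ T ^ (1 / 4 : ℝ) * T := by
            refine mul_le_mul (f2.trans (Real.rpow_le_rpow_of_exponent_le q4 (by linarith))) hBT (by positivity) (by positivity)
    have g2 : (X / 2) ^ 5 ≤ (B:ℝ) ^ 5 := pow_le_pow_left₀ (by positivity) hB3 5
    have g3 : T ^ (5 / 2 : ℝ) ≤ X ^ 5 := by
      rw [hX, ← Real.rpow_natCast, ← Real.rpow_mul hT0.le]
      refine Real.rpow_le_rpow_of_exponent_le q4 ?_
      push_cast
      rw [one_div_mul_eq_div, div_le_div_iff₀ (by norm_num) hc0]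
      linarith
    have g4 : 32 * (T ^ (1 / 4 : ℝ) * T) ≤ T ^ (5 / 2 : ℝ) := by
      have e : T ^ (5 / 2 : ℝ) = T ^ (1 / 4 : ℝ) * T * (T * T ^ (1 / 4 : ℝ)) := by
        nth_rewrite 3 [← Real.rpow_one T]
        nth_rewrite 4 [← Real.rpow_one T]
        rw [← Real.rpow_add hT0, ← Real.rpow_add hT0, ← Real.rpow_add hT0]
        norm_num
      rw [e, mul_comm 32]
      refine mul_le_mul_of_nonneg_left ?_ (by positivity)
      have := Real.one_le_rpow q4 (show (0:ℝ) ≤ 1 / 4 by norm_num)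
      nlinarith
    have g5 : (X / 2) ^ 5 = X ^ 5 / 32 := by ring
    linarith
  -- the integer
  set k : ℕ := ⌈A₀ * ξ / B⌉₊ with hk
  set A : ℝ := k * B / ξ with hA
  have hk1 : A₀ * ξ / B ≤ k := Nat.le_ceil _
  have hk2 : (k:ℝ) ≤ A₀ * ξ / B + 1 := (Nat.ceil_lt_add_one (by positivity)).le
  have hA1 : A₀ ≤ A := by
    rw [hA, le_div_iff₀ hξ0]
    rw [div_le_iff₀ hBpos] at hk1
    exact hk1
  have hA2 : A ≤ A₀ + 1 := by
    rw [hA, div_le_iff₀ hξ0]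
    have g1 : (k:ℝ) * B ≤ (A₀ * ξ / B + 1) * B := by gcongr
    have g2 : (A₀ * ξ / B + 1) * B = A₀ * ξ + B := by field_simp
    have g3 : (A₀ + 1) * ξ = A₀ * ξ + ξ := by ring
    rw [g3]
    rw [g2] at g1
    linarith
  have h6 := hsum B L (u:ℝ) ξ (U325.DS.lp A c) (hder A hA1 hA2) hBn (hB1.trans hu1) hLB huL hξ1 hξ2
  have e1 : ∑ n ∈ Finset.range L, U325.DS.ee (ξ * U325.DS.lp A c 0 (((u:ℝ) + n) / B)) =
      ∑ j ∈ Finset.range L, U325.DS.ee (-(|lam| * t j / (2 * Real.pi))) := by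
    refine Finset.sum_congr rfl fun j hj => ?_
    rw [(ht j (Finset.mem_range.1 hj)).1]
    have e2 : ξ * U325.DS.lp A c 0 (((u:ℝ) + j) / B) = ((k * (u + j) : ℕ) : ℝ) + -(|lam| * ((u:ℝ) + j) ^ c / (2 * Real.pi)) := by
      unfold U325.DS.lp U325.DS.pw U325.DS.cf
      simp only [if_true, Finset.range_zero, Finset.prod_empty, one_mul, Nat.cast_zero, sub_zero]
      rw [Real.div_rpow (by positivity) hBpos.le, hA, hξ]
      have hBc0 : (B:ℝ) ^ c ≠ 0 := by positivity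
      push_cast
      field_simp
      ring
    rw [e2, ee_int]
  rw [e1, ← norm_abs] at h6
  refine h6.trans ?_
  rw [abs_of_pos hξ0]
  -- sizes
  have s1 : C * (B:ℝ) ^ (1 - η) ≤ L * T ^ (-θ') := by
    have g1 : (B:ℝ) ^ (1 - η) ≤ T ^ ((1 - η) / c) := by
      calc (B:ℝ) ^ (1 - η) ≤ X ^ (1 - η) := Real.rpow_le_rpow hBpos.le hB1 (by linarith)
        _ = _ := by rw [hX, ← Real.rpow_mul hT0.le]; congr 1; ring
    have g2 : C * T ^ ((1 - η) / c) ≤ T ^ (1 / c - η₁) * T ^ (-θ') := by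
      have e3 : (1 - η) / c = 1 / c - 2 * η₁ := by rw [hη₁]; field_simp
      rw [e3]
      have e4 : T ^ (1 / c - 2 * η₁) = T ^ (1 / c - η₁) * T ^ (-θ') * T ^ (-(η₁ - θ')) := by
        rw [← Real.rpow_add hT0, ← Real.rpow_add hT0]; congr 1; ring
      rw [e4]
      have g3 : C * T ^ (-(η₁ - θ')) ≤ 1 := by
        rw [Real.rpow_neg hT0.le, ← div_eq_mul_inv, div_le_one (by positivity)]
        have : T ^ θ' ≤ T ^ (η₁ - θ') := Real.rpow_le_rpow_of_exponent_le q4 (by linarith)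
        linarith
      calc C * (T ^ (1 / c - η₁) * T ^ (-θ') * T ^ (-(η₁ - θ'))) = (T ^ (1 / c - η₁) * T ^ (-θ')) * (C * T ^ (-(η₁ - θ'))) := by ring
        _ ≤ (T ^ (1 / c - η₁) * T ^ (-θ')) * 1 := by gcongr
        _ = _ := mul_one _
    calc C * (B:ℝ) ^ (1 - η) ≤ C * T ^ ((1 - η) / c) := by gcongr
      _ ≤ _ := g2
      _ ≤ _ := by gcongr
  have s2 : C * (B / ξ) ≤ L * T ^ (-θ') * (1 / |lam|) := by
    have g1 : (B:ℝ) / ξ ≤ 4 * Real.pi * T ^ (-ρ) * (1 / |lam|) := by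
      rw [hξ, hBc, div_div_eq_mul_div]
      have g2 : (T ^ ρ / 2) ≤ (B:ℝ) ^ (c - 1) := by rw [← hXc1]; exact hBc1
      have e5 : (B:ℝ) * (2 * Real.pi) / (|lam| * ((B:ℝ) ^ (c - 1) * B)) = 2 * Real.pi / (B:ℝ) ^ (c - 1) * (1 / |lam|) := by
        field_simp
      rw [e5]
      refine mul_le_mul_of_nonneg_right ?_ (by positivity)
      rw [Real.rpow_neg hT0.le]
      calc 2 * Real.pi / (B:ℝ) ^ (c - 1) ≤ 2 * Real.pi / (T ^ ρ / 2) := by gcongr
        _ = _ := by field_simp; ring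
    have g3 : C * (4 * Real.pi * T ^ (-ρ)) ≤ L * T ^ (-θ') := by
      have g4 : T ^ (1 / c - η₁) * T ^ (-θ') ≤ L * T ^ (-θ') := by gcongr
      refine le_trans ?_ g4
      have e6 : T ^ (1 / c - η₁) * T ^ (-θ') = T ^ (-ρ) * T ^ (1 - η₁ - θ') := by
        rw [← Real.rpow_add hT0, ← Real.rpow_add hT0]; congr 1; rw [hρ]; ring
      rw [e6]
      have g5 : T ^ θ' ≤ T ^ (1 - η₁ - θ') := Real.rpow_le_rpow_of_exponent_le q4 (by linarith)
      have g6 : 4 * Real.pi * C ≤ T ^ (1 - η₁ - θ') := by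
        have g7 : 4 * Real.pi * C ≤ 13 * C := mul_le_mul_of_nonneg_right (by linarith) hC.le
        linarith
      calc C * (4 * Real.pi * T ^ (-ρ)) = T ^ (-ρ) * (4 * Real.pi * C) := by ring
        _ ≤ _ := by gcongr
    calc C * (B / ξ) ≤ C * (4 * Real.pi * T ^ (-ρ) * (1 / |lam|)) := by gcongr
      _ = C * (4 * Real.pi * T ^ (-ρ)) * (1 / |lam|) := by ring
      _ ≤ _ := by gcongr
  calc C * ((B:ℝ) ^ (1 - η) + B / ξ) = C * (B:ℝ) ^ (1 - η) + C * (B / ξ) := by ring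
    _ ≤ L * T ^ (-θ') + L * T ^ (-θ') * (1 / |lam|) := add_le_add s1 s2
    _ = _ := by ring

/-- The following families of finite sets of heights see the high moments of zeta. (1) For `κ > 0` there is `M` such that for
all `0 < c₀ ≤ C₀`: the heights `T F(1 + j/J)`, `j < J`, `J ≥ T^κ`, for all curves `F` with constants `M, c₀, C₀`. (2) For
`κ > 0` and `0 < a < 1`: the heights `T (1 + j/J)^a`, `j < J`, `J ≥ T^κ`. (3) For `1 < c < 2` and some `η > 0`: the powers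
`n^c`, `u ≤ n < u + L`, in `[T, 2T]` with `L ≥ T^(1/c - η)`. -/
theorem result :
    (∀ κ : ℝ, 0 < κ → ∃ M : ℕ, ∀ c₀ C₀ : ℝ, 0 < c₀ →
      SeesMoments (fun T J t => T ^ κ ≤ J ∧ ∃ F : ℕ → ℝ → ℝ, Curve M c₀ C₀ F ∧ ∀ j : ℕ, j < J → t j = T * F 0 (1 + j / J))) ∧
    (∀ κ a : ℝ, 0 < κ → 0 < a → a < 1 →
      SeesMoments (fun T J t => T ^ κ ≤ J ∧ ∀ j : ℕ, j < J → t j = T * (1 + (j : ℝ) / J) ^ a)) ∧
    (∀ c : ℝ, 1 < c → c < 2 → ∃ η : ℝ, 0 < η ∧
      SeesMoments (fun T L t => T ^ (1 / c - η) ≤ L ∧ ∃ u : ℕ, ∀ j : ℕ, j < L → t j = ((u : ℝ) + j) ^ c ∧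
        t j ∈ Icc T (2 * T))) := by
  refine ⟨fun κ hκ => ⟨⌈2 / κ⌉₊, fun c₀ C₀ hc₀ => ?_⟩, fun κ a hκ ha0 ha1 => ?_, fun c hc1 hc2 => ?_⟩
  · obtain ⟨θ, θ', T₁, h1, h2, h3⟩ := curves hκ (C₀ := C₀) hc₀ (M := ⌈2 / κ⌉₊) (Nat.le_ceil _)
    exact sees h1 h2 T₁ h3
  · obtain ⟨c₀, C₀, hc₀, hder⟩ := U325.DS.der_small ha0 ha1 ⌈2 / κ⌉₊
    obtain ⟨θ, θ', T₁, h1, h2, h3⟩ := curves hκ (C₀ := C₀) hc₀ (M := ⌈2 / κ⌉₊) (Nat.le_ceil _)
    refine sees h1 h2 T₁ fun T hT J t ⟨hJ, ht⟩ => h3 T hT J t ⟨hJ, U325.DS.pw a, ⟨fun x hx => ?_, hder.1, hder.2⟩, fun j hj => ?_⟩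
    · have e : U325.DS.pw a 0 x = x ^ a := by simp [U325.DS.pw, U325.DS.cf]
      rw [e]
      refine ⟨Real.one_le_rpow hx.1 ha0.le, ?_⟩
      calc x ^ a ≤ x ^ (1:ℝ) := Real.rpow_le_rpow_of_exponent_le hx.1 ha1.le
        _ = x := Real.rpow_one x
        _ ≤ 2 := hx.2
    · rw [ht j hj]
      simp [U325.DS.pw, U325.DS.cf]
  · obtain ⟨η, hη, θ, θ', T₁, h1, h2, h3⟩ := powers hc1 hc2
    exact ⟨η, hη, sees h1 h2 T₁ h3⟩

end

end Pool.Agent.Results.MP_80d0cf_nt.ExplicitSamples
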