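import Pool.Agent.U345.ZD

/-!
# The `2k`-th moment of zeta and its values at arbitrary points with gaps at most `c / log T`, `c < 2π/k`

Let `k` be a natural number. For `1 ≤ U ≤ T / log T` let `moment k T U` be the integral of `|ζ(1/2 + iy)|^(2k)` over `y`, with the
Gaussian weight `exp (-((y - T) / U)^2)`, i.e. essentially over the interval of length about `U` around `T` (`U` may be bounded,
e.g. `U = 1`).

Theorem (unconditional). Let `t_0 ≤ t_1 ≤ … ≤ t_n` be arbitrary real numbers with `t_0 ≤ T/2`, `t_n ≥ 3T/2` and
`t_(i+1) - t_i ≤ c / log T`. The square root of the trapezoidal sum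
`∑ (t_(i+1) - t_i) (q(t_i) + q(t_(i+1))) / 2`, `q(y) = |ζ(1/2 + iy)|^(2k) exp (-((y - T) / U)^2)`,
lies between `1 - ck/(2π) - ε` and `1 + ck/(2π) + ε` times the square root of the moment, for `T ≥ T₀(k, c, ε)`, uniformly in the
points `t_i` and in `U`.

So for every `c < 2π/k` the `2k`-th moment, in every window, is up to constants the discrete moment over ANY points with the largest
gap at most `c / log T`, whatever the number and the distribution of the points are: a bound of the order `N` for one of these
discrete moments (for instance for one sequence chosen in dependence of the values of zeta) is equivalent to the bound of the order `N`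
for the moment, and for `c → 0` the two are asymptotically equal: the moment has an asymptotic formula if and only if the discrete
moments over some (all) sequences with the largest gap `o(1 / log T)` have it. For `k = 1` the constant `2π` is the mean
distance of the zeros (and of the Gram points), and for sets of points of smaller density no such inequality holds for general functions
with the same spectrum. The hand-in `MP_f9aece_nt.ArithmeticProgressions` treats arithmetic progressions by Poisson summation
(asymptotic equality); here the points are arbitrary.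

Proof. Let `f(y)` be `((s - 1) ζ(s))^k` times a Gaussian and the factor `T^(iky/2)`, on the critical line. By convexity and the
functional equation `‖f'‖ ≤ (k/2 + o(1)) log T ‖f‖` in the mean square, without any information on the size of the moment. The step
function with the values `f(t_i)` near `t_i` differs from `f` by at most `(d/π) ‖f'‖`, `d` the largest gap, by Wirtinger's inequality
with one boundary condition on the halves of the gaps.
-/

set_option autoImplicit false

namespace Pool.Agent.Results.MP_80d0cf_nt.IrregularSampling

open MeasureTheory Filter Topology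

/-- the function `|ζ(1/2 + iy)|^(2k) exp (-((y - T) / U)^2)` -/
noncomputable def integrand (k : ℕ) (T U y : ℝ) : ℝ :=
  ‖riemannZeta (((1 / 2 : ℝ) : ℂ) + y * Complex.I)‖ ^ (2 * k) * Real.exp (-((y - T) / U) ^ 2)

/-- the moment `∫ |ζ(1/2 + iy)|^(2k) exp (-((y - T) / U)^2) dy` -/
noncomputable def moment (k : ℕ) (T U : ℝ) : ℝ := ∫ y : ℝ, integrand k T U y

/-- the trapezoidal sum of the function `q` for the points `t 0, …, t n` -/
noncomputable def trapezoid (q : ℝ → ℝ) (t : ℕ → ℝ) (n : ℕ) : ℝ :=
  ∑ i ∈ Finset.range n, (t (i + 1) - t i) * ((q (t i) + q (t (i + 1))) / 2)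

/-- Let `k` be a natural number, `c > 0` and `ε > 0`. There is `T₀` such that for all `T ≥ T₀`, all `U` with `1 ≤ U ≤ T / log T` and
all points `t 0 ≤ … ≤ t n` with `t 0 ≤ T / 2`, `t n ≥ 3 T / 2` and gaps at most `c / log T` the square roots of the trapezoidal sum
and of the moment (which is positive) differ by at most `ck/(2π) + ε` times the latter. -/
theorem result (k : ℕ) (c ε : ℝ) (hc : 0 < c) (hε : 0 < ε) :
    ∃ T₀ : ℝ, ∀ T : ℝ, T₀ ≤ T → ∀ U : ℝ, 1 ≤ U → U ≤ T / Real.log T →
      0 < moment k T U ∧
      ∀ (t : ℕ → ℝ) (n : ℕ), t 0 ≤ T / 2 → 3 * T / 2 ≤ t n →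
        (∀ i < n, t i ≤ t (i + 1) ∧ t (i + 1) - t i ≤ c / Real.log T) →
        |√(trapezoid (integrand k T U) t n) - √(moment k T U)| ≤
          (c * k / (2 * Real.pi) + ε) * √(moment k T U) := by
  obtain ⟨T1, hT1⟩ := eventually_atTop.mp (U345Z.trapZ k hc hε)
  refine ⟨max 3 T1, fun T hT U hU1 hU2 => ?_⟩
  exact hT1 T (le_of_max_le_right hT) U ⟨le_of_max_le_left hT, hU1, hU2⟩

end Pool.Agent.Results.MP_80d0cf_nt.IrregularSampling
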