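import Pool.Agent.U899.MB.Core
import Pool.Agent.U899.MB.AP

set_option autoImplicit false

/-!
# High moments of zeta on the critical line, given the values `p^(-it)` at the small primes

For every integer `q = 2k ≥ 2` the moments of order `q` of `ζ(1/2 + it)` have at least the conjectured
order of magnitude `(log T)^(k²)` also when `t` is restricted to the points of `[T, T + H]`,
`T^(1-η) ≤ H ≤ T`,

* at which finitely many absolutely convergent Dirichlet series `D_i(σ_i + it)` are close to any of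
  their vertical limit values `∑ χ(n) a_i(n) n^(-σ_i)` (`χ` completely multiplicative of absolute value
  one, for instance Liouville's function); with `D_i(s) = p_i^(-s)`, `σ_i = 0`, these are the points at
  which the `p^(-it)` for `p` in a finite set of primes are close to arbitrary points of the circle;
* at which finitely many (translated) uniformly almost periodic functions take their values in an open
  set which they visit; and when they are weighted by a nonnegative almost periodic function.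

The constants do not depend on `χ` and on the translation.
-/

namespace Pool.Agent.Results.MP_80d0cf_nt.MomentsGivenSmallPrimes

open MeasureTheory Filter Topology

/-- `χ` is completely multiplicative on the positive integers, with values on the unit circle. -/
def Unimodular (χ : ℕ → ℂ) : Prop :=
  χ 1 = 1 ∧ (∀ m n : ℕ, 1 ≤ m → 1 ≤ n → χ (m * n) = χ m * χ n) ∧ ∀ n : ℕ, 1 ≤ n → ‖χ n‖ = 1

/-- `P` is a trigonometric polynomial `∑ a_l e^(i l t)` with real frequencies `l`. -/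
def IsTrigPoly (P : ℝ → ℂ) : Prop := ∃ (Λ : Finset ℝ) (a : ℝ → ℂ), ∀ t : ℝ,
  P t = ∑ l ∈ Λ, a l * Complex.exp (((l * t : ℝ) : ℂ) * Complex.I)

/-- `f` is uniformly almost periodic: a uniform limit of trigonometric polynomials. -/
def AlmostPeriodic (f : ℝ → ℂ) : Prop :=
  ∀ ε : ℝ, 0 < ε → ∃ P : ℝ → ℂ, IsTrigPoly P ∧ ∀ t : ℝ, ‖f t - P t‖ ≤ ε

/-- the absolute value of zeta on the critical line -/
noncomputable def z (t : ℝ) : ℝ := ‖riemannZeta (1 / 2 + t * Complex.I)‖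

theorem result (k : ℝ) (q : ℕ) (hq : 2 ≤ q) (hk : (q : ℝ) = 2 * k) :
    (∀ (m : ℕ) (a : Fin m → ℕ → ℂ) (σ : Fin m → ℝ), (∀ i, LSeriesSummable (a i) (σ i)) →
      ∀ ε : ℝ, 0 < ε → ∃ c η : ℝ, 0 < c ∧ 0 < η ∧ ∀ᶠ T : ℝ in atTop, ∀ H : ℝ, T ^ (1 - η) ≤ H → H ≤ T →
        ∀ χ : ℕ → ℂ, Unimodular χ → c * H * Real.log T ^ (k ^ 2) ≤
          ∫ t in {t : ℝ | t ∈ Set.Icc T (T + H) ∧ ∀ i,
            ‖LSeries (a i) ((σ i : ℂ) + t * Complex.I) - LSeries (fun n => χ n * a i n) (σ i)‖ < ε},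
            z t ^ (2 * k)) ∧
    (∀ (m : ℕ) (f : Fin m → ℝ → ℂ), (∀ i, AlmostPeriodic (f i)) → ∀ U : Set (Fin m → ℂ), IsOpen U →
      (∃ s : ℝ, (fun i => f i s) ∈ U) → ∃ c η : ℝ, 0 < c ∧ 0 < η ∧ ∀ᶠ T : ℝ in atTop, ∀ H : ℝ,
        T ^ (1 - η) ≤ H → H ≤ T → ∀ t₁ : ℝ, c * H * Real.log T ^ (k ^ 2) ≤
          ∫ t in {t : ℝ | t ∈ Set.Icc T (T + H) ∧ (fun i => f i (t - t₁)) ∈ U}, z t ^ (2 * k)) ∧
    (∀ w : ℝ → ℝ, AlmostPeriodic (fun t => (w t : ℂ)) → (∀ t, 0 ≤ w t) → (∃ s, w s ≠ 0) →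
      ∃ c η : ℝ, 0 < c ∧ 0 < η ∧ ∀ᶠ T : ℝ in atTop, ∀ H : ℝ, T ^ (1 - η) ≤ H → H ≤ T →
        ∀ t₁ : ℝ, c * H * Real.log T ^ (k ^ 2) ≤ ∫ t in T..T + H, w (t - t₁) * z t ^ (2 * k)) := by
  have e1 : ((q:ℝ) ^ 2 / 4) = k ^ 2 := by rw [hk]; ring
  have e2 : ∀ t : ℝ, z t ^ (2 * k) = ‖riemannZeta (1 / 2 + t * Complex.I)‖ ^ q := fun t => by
    rw [← hk, Real.rpow_natCast]
    rfl
  simp_rw [e2]
  refine ⟨fun m a σ ha ε hε => ?_, fun m f hf U hU hs => ?_, fun w hw hw0 hs => ?_⟩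
  · obtain ⟨c, hc, η, hη, h⟩ := Pool.Agent.U899.MB.given_series q hq a σ ha hε
    refine ⟨c, η, hc, hη, ?_⟩
    filter_upwards [h] with T hT H hH1 hH2 χ hχ
    rw [← e1]
    exact hT H hH1 hH2 χ ⟨hχ.1, hχ.2.1, hχ.2.2⟩
  · obtain ⟨s, hs⟩ := hs
    obtain ⟨c, hc, η, hη, h⟩ := Pool.Agent.U899.MB.ap_sets q hq f hf U hU s hs
    refine ⟨c, η, hc, hη, ?_⟩
    filter_upwards [h] with T hT H hH1 hH2 t₁
    rw [← e1]
    exact hT H hH1 hH2 t₁
  · obtain ⟨s, hs⟩ := hs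
    obtain ⟨c, hc, η, hη, h⟩ := Pool.Agent.U899.MB.ap_weights q hq w hw hw0 s
      (lt_of_le_of_ne (hw0 s) (Ne.symm hs))
    refine ⟨c, η, hc, hη, ?_⟩
    filter_upwards [h] with T hT H hH1 hH2 t₁
    rw [← e1]
    exact hT H hH1 hH2 t₁

end Pool.Agent.Results.MP_80d0cf_nt.MomentsGivenSmallPrimes
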